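import Pool.Agent.Q283.LS.Stm3

/-!
# LS-CY (project LS of helper283): the cyclotomic fields of 2-power order are regular
-/

set_option autoImplicit false

namespace Pool.Agent.Q177.LS

open NumberField IsDedekindDomain Pool.Agent.Q283.LQ Pool.Agent.Q283.LS

theorem one_of_pow {w : WithZero (Multiplicative ℤ)} {n : ℕ} (hn : n ≠ 0) (h : w ^ n = 1) : w = 1 := by
  rcases lt_trichotomy w 1 with h1 | h1 | h1
  · exact absurd h (pow_lt_one₀ zero_le h1 hn).ne
  · exact h1
  · exact absurd h (one_lt_pow₀ h1 hn).ne'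

section core

variable {F : Type} [Field F] [NumberField F]

theorem liesOver_two {v : HeightOneSpectrum (𝓞 F)} (hv : Dy v) :
    v.asIdeal.LiesOver (Ideal.span {((2 : ℕ) : ℤ)}) := by
  haveI : Fact (Nat.Prime 2) := ⟨Nat.prime_two⟩
  rw [Ideal.liesOver_iff]
  refine Ideal.IsMaximal.eq_of_le (Int.ideal_span_isMaximal_of_prime 2) ?_ ?_
  · haveI := v.isPrime
    exact (inferInstance : (v.asIdeal.under ℤ).IsPrime).ne_top
  · rw [Ideal.span_singleton_le_iff_mem, Ideal.mem_comap, algebraMap_int_eq, map_natCast]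
    exact_mod_cast hv

/-- an element of valuation `1` is a quotient of two integers outside the prime, for a principal prime -/
theorem exists_quot {v : HeightOneSpectrum (𝓞 F)} {π : 𝓞 F} (hπ0 : π ≠ 0) (hπ : v.asIdeal = Ideal.span {π})
    {x : F} (hx : v.valuation F x = 1) :
    ∃ a b : 𝓞 F, a ∉ v.asIdeal ∧ b ∉ v.asIdeal ∧ x * (b : F) = a := by
  obtain ⟨a, b, hb, hab⟩ := IsFractionRing.div_surjective (A := 𝓞 F) x
  have hb0 : b ≠ 0 := nonZeroDivisors.ne_zero hb
  have hb0' : (algebraMap (𝓞 F) F b) ≠ 0 := by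
    intro h
    exact hb0 ((map_eq_zero_iff _ (IsFractionRing.injective (𝓞 F) F)).1 h)
  have hxb : x * algebraMap (𝓞 F) F b = algebraMap (𝓞 F) F a := by
    rw [← hab, div_mul_cancel₀ _ hb0']
  have hv : v.intValuation a = v.intValuation b := by
    have h := congrArg (v.valuation F) hxb
    rw [map_mul, hx, one_mul, HeightOneSpectrum.valuation_of_algebraMap,
      HeightOneSpectrum.valuation_of_algebraMap] at h
    exact h.symm
  obtain ⟨m, hm⟩ : ∃ m : ℕ, v.intValuation b = WithZero.exp (-(m : ℤ)) := ⟨_, v.intValuation_if_neg hb0⟩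
  have hb1 : b ∈ v.asIdeal ^ m := (v.intValuation_le_pow_iff_mem b m).1 hm.le
  have ha1 : a ∈ v.asIdeal ^ m := (v.intValuation_le_pow_iff_mem a m).1 (hv.trans hm).le
  rw [hπ, Ideal.span_singleton_pow, Ideal.mem_span_singleton] at hb1 ha1
  obtain ⟨b', hb'⟩ := hb1
  obtain ⟨a', ha'⟩ := ha1
  have hπv : v.intValuation π = WithZero.exp (-1 : ℤ) := v.intValuation_singleton hπ0 hπ
  have hpow : v.intValuation (π ^ m) = WithZero.exp (-(m : ℤ)) := by
    rw [map_pow, hπv, ← WithZero.exp_nsmul]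
    congr 1
    simp
  have hne : (WithZero.exp (-(m : ℤ)) : WithZero (Multiplicative ℤ)) ≠ 0 := WithZero.exp_ne_zero
  have hcase : ∀ c c' : 𝓞 F, c = π ^ m * c' → v.intValuation c = WithZero.exp (-(m : ℤ)) →
      c' ∉ v.asIdeal := by
    intro c c' h1 h2 h3
    rw [h1, map_mul, hpow] at h2
    have h4 : v.intValuation c' = 1 := by
      have : WithZero.exp (-(m : ℤ)) * v.intValuation c' = WithZero.exp (-(m : ℤ)) * 1 := by
        rw [h2, mul_one]
      exact mul_left_cancel₀ hne this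
    have h5 := (v.intValuation_lt_one_iff_mem c').2 h3
    rw [h4] at h5
    exact lt_irrefl _ h5
  refine ⟨a', b', hcase a a' ha' (hv.trans hm), hcase b b' hb' hm, ?_⟩
  have hπ' : (algebraMap (𝓞 F) F (π ^ m)) ≠ 0 := by
    intro h
    exact (pow_ne_zero m hπ0) ((map_eq_zero_iff _ (IsFractionRing.injective (𝓞 F) F)).1 h)
  rw [hb', ha', map_mul, map_mul] at hxb
  have h6 : algebraMap (𝓞 F) F (π ^ m) * (x * algebraMap (𝓞 F) F b') =
      algebraMap (𝓞 F) F (π ^ m) * algebraMap (𝓞 F) F a' := by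
    rw [← hxb]; ring
  exact mul_left_cancel₀ hπ' h6

/-- a primitive root of unity of order `2 ^ (k + 1)` is not a square at the prime above `2` -/
theorem not_lsq_zeta (k : ℕ) [IsCyclotomicExtension {2 ^ (k + 1)} ℚ F] {ζ : F}
    (hζ : IsPrimitiveRoot ζ (2 ^ (k + 1))) (v : HeightOneSpectrum (𝓞 F)) (hv : Dy v) : ¬ Lsq v ζ := by
  intro hL
  haveI : Fact (Nat.Prime 2) := ⟨Nat.prime_two⟩
  haveI := v.isPrime
  haveI := liesOver_two hv
  have hs : v.asIdeal = Ideal.span {hζ.toInteger - 1} :=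
    IsCyclotomicExtension.Rat.eq_span_zeta_sub_one_of_liesOver 2 k F hζ v.asIdeal
  have hcard : Ideal.absNorm v.asIdeal = 2 := by
    rw [hs]
    exact IsCyclotomicExtension.Rat.absNorm_span_zeta_sub_one 2 k hζ
  have hπ0 : hζ.toInteger - 1 ≠ 0 := by
    intro h
    rw [hs, h] at hcard
    simp at hcard
  have hπv : v.intValuation (hζ.toInteger - 1) = WithZero.exp (-1 : ℤ) :=
    v.intValuation_singleton hπ0 hs
  have hπv' : v.valuation F (ζ - 1) = WithZero.exp (-1 : ℤ) := by
    rw [← hπv, ← HeightOneSpectrum.valuation_of_algebraMap (K := F)]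
    congr 1
  have hζ1 : v.valuation F ζ = 1 := by
    have h1 : v.valuation F ζ ^ (2 ^ (k + 1)) = 1 := by
      rw [← map_pow, hζ.pow_eq_one, map_one]
    exact one_of_pow (by positivity) h1
  obtain ⟨x, hx⟩ := hL 1
  have he1 : (WithZero.exp (-(1 : ℕ) : ℤ) : WithZero (Multiplicative ℤ)) < 1 := by
    rw [← WithZero.exp_zero, WithZero.exp_lt_exp]
    norm_num
  have hx1 : v.valuation F x = 1 := by
    have h1 : v.valuation F (ζ * x ^ 2) = 1 := by
      have h2 : v.valuation F (ζ * x ^ 2 - 1 + 1) = v.valuation F 1 :=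
        (v.valuation F).map_add_eq_of_lt_right (by rw [map_one]; exact hx.trans he1)
      rw [sub_add_cancel, map_one] at h2
      exact h2
    rw [map_mul, hζ1, one_mul, map_pow] at h1
    exact one_of_pow (by norm_num) h1
  obtain ⟨a, b, ha, hb, hab⟩ := exists_quot hπ0 hs hx1
  have hindex : v.asIdeal.toAddSubgroup.index = 2 := hcard
  have hmem : a - b ∈ v.asIdeal := by
    have h1 := AddSubgroup.add_mem_iff_of_index_two hindex (a := a) (b := -b)
    rw [← sub_eq_add_neg] at h1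
    refine h1.2 ⟨fun h => absurd h ha, fun h => absurd ?_ hb⟩
    have h2 : -b ∈ v.asIdeal := h
    simpa using v.asIdeal.neg_mem h2
  have hbv : v.valuation F (b : F) = 1 := by
    change v.valuation F (algebraMap (𝓞 F) F b) = 1
    rw [HeightOneSpectrum.valuation_of_algebraMap]
    exact le_antisymm (v.intValuation_le_one b) (not_lt.1 fun h => hb ((v.intValuation_lt_one_iff_mem b).1 h))
  have hxm : v.valuation F (x - 1) ≤ WithZero.exp (-1 : ℤ) := by
    have h1 : (x - 1) * (b : F) = algebraMap (𝓞 F) F (a - b) := by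
      rw [map_sub, sub_mul, one_mul, hab]
    have h2 := congrArg (v.valuation F) h1
    rw [map_mul, hbv, mul_one, HeightOneSpectrum.valuation_of_algebraMap] at h2
    rw [h2]
    have h3 := (v.intValuation_le_pow_iff_mem (a - b) 1).2 (by rw [pow_one]; exact hmem)
    simpa using h3
  have h2v : v.valuation F (2 : F) ≤ WithZero.exp (-1 : ℤ) := by
    have h3 := (v.intValuation_le_pow_iff_mem (2 : 𝓞 F) 1).2 (by rw [pow_one]; exact hv)
    have h4 : v.valuation F (algebraMap (𝓞 F) F 2) = v.intValuation (2 : 𝓞 F) :=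
      HeightOneSpectrum.valuation_of_algebraMap v 2
    rw [map_ofNat] at h4
    rw [h4]
    simpa using h3
  have hxp : v.valuation F (x + 1) ≤ WithZero.exp (-1 : ℤ) := by
    have h1 : x + 1 = (x - 1) + 2 := by ring
    rw [h1]
    exact (v.valuation F).map_add_le hxm h2v
  have hsq : v.valuation F (x ^ 2 - 1) < WithZero.exp (-1 : ℤ) := by
    have h1 : x ^ 2 - 1 = (x - 1) * (x + 1) := by ring
    rw [h1, map_mul]
    refine lt_of_le_of_lt (mul_le_mul' hxm hxp) ?_
    rw [← WithZero.exp_add, WithZero.exp_lt_exp]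
    norm_num
  have hmain : v.valuation F (ζ * x ^ 2 - 1) = WithZero.exp (-1 : ℤ) := by
    have h1 : ζ * x ^ 2 - 1 = (x ^ 2 - 1) + (ζ - 1) * x ^ 2 := by ring
    have h2 : v.valuation F ((ζ - 1) * x ^ 2) = WithZero.exp (-1 : ℤ) := by
      rw [map_mul, map_pow, hx1, one_pow, mul_one, hπv']
    rw [h1, (v.valuation F).map_add_eq_of_lt_right (by rw [h2]; exact hsq), h2]
  rw [hmain] at hx
  exact lt_irrefl _ hx

end core

theorem cy (hRQ1 : Pool.Agent.Q283.LS.S_RQ1) (hRQ3 : Pool.Agent.Q283.LS.S_RQ3) : Pool.Agent.Q283.LS.S_CY := by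
  intro n
  induction n with
  | zero =>
    intro F _ _ hF
    refine hRQ1 F ?_
    haveI : NeZero (2 ^ 0) := ⟨by norm_num⟩
    rw [IsCyclotomicExtension.Rat.finrank (2 ^ 0) F]
    decide
  | succ n ih =>
    intro L _ _ hL
    rcases n with _ | k
    · refine hRQ1 L ?_
      haveI : NeZero (2 ^ (0 + 1)) := ⟨by norm_num⟩
      rw [IsCyclotomicExtension.Rat.finrank (2 ^ (0 + 1)) L]
      decide
    haveI : NeZero (2 ^ (k + 1)) := ⟨by positivity⟩
    haveI : NeZero (2 ^ (k + 1 + 1)) := ⟨by positivity⟩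
    obtain ⟨ζ, hζ⟩ : ∃ ζ : L, IsPrimitiveRoot ζ (2 ^ (k + 1 + 1)) :=
      ⟨_, IsCyclotomicExtension.zeta_spec (2 ^ (k + 1 + 1)) ℚ L⟩
    have hζ2 : IsPrimitiveRoot (ζ ^ 2) (2 ^ (k + 1)) := by
      refine hζ.pow (by positivity) ?_
      rw [pow_succ 2 (k + 1), mul_comm]
    haveI hc : IsCyclotomicExtension {2 ^ (k + 1)} ℚ (IntermediateField.adjoin ℚ {ζ ^ 2}) :=
      hζ2.intermediateField_adjoin_isCyclotomicExtension ℚ
    have hmem : ζ ^ 2 ∈ IntermediateField.adjoin ℚ {ζ ^ 2} := IntermediateField.mem_adjoin_simple_self ℚ _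
    obtain ⟨u, hu⟩ : ∃ u : IntermediateField.adjoin ℚ {ζ ^ 2}, u = ⟨ζ ^ 2, hmem⟩ := ⟨_, rfl⟩
    have huL : algebraMap (IntermediateField.adjoin ℚ {ζ ^ 2}) L u = ζ ^ 2 := by rw [hu]; rfl
    have hup : IsPrimitiveRoot u (2 ^ (k + 1)) := by
      refine IsPrimitiveRoot.of_map_of_injective (f := algebraMap (IntermediateField.adjoin ℚ {ζ ^ 2}) L) ?_
        (algebraMap (IntermediateField.adjoin ℚ {ζ ^ 2}) L).injective
      rw [huL]
      exact hζ2
    have hu0 : u ≠ 0 := hup.ne_zero (by positivity)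
    refine hRQ3 (IntermediateField.adjoin ℚ {ζ ^ 2}) L u ⟨?_, ζ, ?_⟩ hu0 ?_ ?_ (ih _ hc)
    · have h1 := Module.finrank_mul_finrank ℚ (IntermediateField.adjoin ℚ {ζ ^ 2}) L
      rw [IsCyclotomicExtension.Rat.finrank (2 ^ (k + 1 + 1)) L,
        IsCyclotomicExtension.Rat.finrank (2 ^ (k + 1)) (IntermediateField.adjoin ℚ {ζ ^ 2}),
        Nat.totient_prime_pow_succ Nat.prime_two, Nat.totient_prime_pow_succ Nat.prime_two] at h1
      have h2 : 2 ^ k * Module.finrank (IntermediateField.adjoin ℚ {ζ ^ 2}) L = 2 ^ k * 2 := by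
        calc 2 ^ k * Module.finrank (IntermediateField.adjoin ℚ {ζ ^ 2}) L =
            2 ^ k * (2 - 1) * Module.finrank (IntermediateField.adjoin ℚ {ζ ^ 2}) L := by norm_num
          _ = 2 ^ (k + 1) * (2 - 1) := h1
          _ = 2 ^ k * 2 := by norm_num [pow_succ]
      exact Nat.eq_of_mul_eq_mul_left (by positivity) h2
    · rw [huL]
    · intro v _ hod
      obtain ⟨m, hm⟩ := hod
      have h1 : v.valuation (IntermediateField.adjoin ℚ {ζ ^ 2}) u = 1 := by
        have h2 : v.valuation (IntermediateField.adjoin ℚ {ζ ^ 2}) u ^ (2 ^ (k + 1)) = 1 := by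
          rw [← map_pow, hup.pow_eq_one, map_one]
        exact one_of_pow (by positivity) h2
      rw [h1, ← WithZero.exp_zero, WithZero.exp_inj] at hm
      omega
    · intro v hv
      exact not_lsq_zeta k hup v hv

end Pool.Agent.Q177.LS
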