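import Pool.Agent.Q283.LS.Stm

/-!
# LS-UNR (project LS of helper283): ramified and unramified square roots at an odd place
-/

set_option autoImplicit false

namespace Pool.Agent.Q177.LS

open NumberField IsDedekindDomain Pool.Agent.Q283.LQ Pool.Agent.Q283.LS

/-- restriction of an automorphism to an algebraically closed algebraic subfield -/
theorem exists_restrict {Ω L : Type} [Field Ω] [CharZero Ω] [IsAlgClosed Ω] [Algebra.IsAlgebraic ℚ Ω]
    [Field L] [CharZero L] (j : Ω →+* L) (τ : L ≃+* L) : ∃ σ : Ω ≃ₐ[ℚ] Ω, ∀ x, j (σ x) = τ (j x) := by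
  letI : Algebra Ω L := j.toAlgebra
  haveI : IsScalarTower ℚ Ω L := inferInstance
  haveI : IsAlgClosure ℚ Ω := ⟨inferInstance, inferInstance⟩
  let τ' : L ≃ₐ[ℚ] L := AlgEquiv.ofRingEquiv (f := τ) (fun r => by simp)
  exact ⟨τ'.restrictNormal Ω, fun x => AlgEquiv.restrictNormal_commutes τ' Ω x⟩

section pad

variable {l : ℕ} [Fact l.Prime]

theorem norm_aut (τ : PadicAlgCl l ≃ₐ[ℚ_[l]] PadicAlgCl l) (x : PadicAlgCl l) : ‖τ x‖ = ‖x‖ :=
  (spectralNorm_eq_of_equiv τ x).symm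

theorem exists_aut (K : IntermediateField ℚ_[l] (PadicAlgCl l)) {x : PadicAlgCl l} (hx : x ∉ K) :
    ∃ τ : PadicAlgCl l ≃ₐ[ℚ_[l]] PadicAlgCl l, (∀ y ∈ K, τ y = y) ∧ τ x ≠ x := by
  by_contra hcon
  push Not at hcon
  apply hx
  rw [← InfiniteGalois.fixedField_fixingSubgroup K]
  intro τ
  exact hcon τ.1 (fun y hy => τ.2 ⟨y, hy⟩)

/-- the values of the nonzero elements of `K` belong to `Γ` -/
def PV (Γ : Set ℝ) (K : IntermediateField ℚ_[l] (PadicAlgCl l)) : Prop := ∀ z ∈ K, z ≠ 0 → ‖z‖ ∈ Γ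

/-- the field `K(θ)` for `θ² ∈ K`, `θ ∉ K` -/
def quad (K : IntermediateField ℚ_[l] (PadicAlgCl l)) (θ : PadicAlgCl l) (hu : θ ^ 2 ∈ K) (hθ : θ ∉ K) :
    IntermediateField ℚ_[l] (PadicAlgCl l) where
  carrier := {z | ∃ α ∈ K, ∃ β ∈ K, z = α + β * θ}
  mul_mem' := by
    rintro _ _ ⟨α, hα, β, hβ, rfl⟩ ⟨α', hα', β', hβ', rfl⟩
    refine ⟨α * α' + β * β' * θ ^ 2, ?_, α * β' + β * α', ?_, by ring⟩
    · exact K.add_mem (K.mul_mem hα hα') (K.mul_mem (K.mul_mem hβ hβ') hu)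
    · exact K.add_mem (K.mul_mem hα hβ') (K.mul_mem hβ hα')
  one_mem' := ⟨1, K.one_mem, 0, K.zero_mem, by ring⟩
  add_mem' := by
    rintro _ _ ⟨α, hα, β, hβ, rfl⟩ ⟨α', hα', β', hβ', rfl⟩
    exact ⟨α + α', K.add_mem hα hα', β + β', K.add_mem hβ hβ', by ring⟩
  zero_mem' := ⟨0, K.zero_mem, 0, K.zero_mem, by ring⟩
  algebraMap_mem' := fun c => ⟨algebraMap _ _ c, K.algebraMap_mem c, 0, K.zero_mem, by ring⟩
  inv_mem' := by
    rintro _ ⟨α, hα, β, hβ, rfl⟩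
    by_cases hN : α ^ 2 - β ^ 2 * θ ^ 2 = 0
    · have h1 : (α - β * θ) * (α + β * θ) = 0 := by rw [← hN]; ring
      rcases mul_eq_zero.1 h1 with h | h
      · have h2 : α = β * θ := sub_eq_zero.1 h
        by_cases hβ0 : β = 0
        · refine ⟨0, K.zero_mem, 0, K.zero_mem, ?_⟩
          rw [h2, hβ0]
          simp
        · exfalso
          apply hθ
          have : θ = α / β := by
            rw [h2]
            field_simp
          rw [this]
          exact K.div_mem hα hβ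
      · refine ⟨0, K.zero_mem, 0, K.zero_mem, ?_⟩
        rw [h]
        simp
    · have hNK : α ^ 2 - β ^ 2 * θ ^ 2 ∈ K :=
        K.sub_mem (pow_mem hα 2) (K.mul_mem (pow_mem hβ 2) hu)
      refine ⟨α / (α ^ 2 - β ^ 2 * θ ^ 2), K.div_mem hα hNK, -β / (α ^ 2 - β ^ 2 * θ ^ 2),
        K.div_mem (K.neg_mem hβ) hNK, ?_⟩
      have h2 : α + β * θ ≠ 0 := by
        intro h
        apply hN
        have : α ^ 2 - β ^ 2 * θ ^ 2 = (α - β * θ) * (α + β * θ) := by ring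
        rw [this, h, mul_zero]
      have h3 : (α / (α ^ 2 - β ^ 2 * θ ^ 2) + -β / (α ^ 2 - β ^ 2 * θ ^ 2) * θ) * (α + β * θ) = 1 := by
        field_simp
        ring
      exact (eq_inv_of_mul_eq_one_left h3).symm

theorem mem_quad {K : IntermediateField ℚ_[l] (PadicAlgCl l)} {θ : PadicAlgCl l} {hu : θ ^ 2 ∈ K}
    {hθ : θ ∉ K} {z : PadicAlgCl l} : z ∈ quad K θ hu hθ ↔ ∃ α ∈ K, ∃ β ∈ K, z = α + β * θ := Iff.rfl

theorem norm_two (hl : l ≠ 2) : ‖(2 : PadicAlgCl l)‖ = 1 := by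
  have h1 : ((2 : ℕ) : ℚ_[l]) = 2 := by norm_num
  have h2 : ‖((2 : ℕ) : ℚ_[l])‖ = 1 := by
    rw [Padic.norm_natCast_eq_one_iff]
    exact (Nat.coprime_primes (Fact.out : l.Prime) Nat.prime_two).2 hl
  rw [h1] at h2
  have h3 := PadicAlgCl.norm_extends l (2 : ℚ_[l])
  rw [h2] at h3
  rw [← h3]
  congr 1

theorem norm_sub_le (x y : PadicAlgCl l) : ‖x - y‖ ≤ max ‖x‖ ‖y‖ := by
  rw [sub_eq_add_neg, ← norm_neg y]
  exact IsUltrametricDist.norm_add_le_max x (-y)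

theorem step (hl : l ≠ 2) {Γ : Set ℝ} {K : IntermediateField ℚ_[l] (PadicAlgCl l)} (hK : PV Γ K)
    {θ : PadicAlgCl l} (hu : θ ^ 2 ∈ K) (hθ1 : ‖θ‖ = 1) :
    ∃ K' : IntermediateField ℚ_[l] (PadicAlgCl l), K ≤ K' ∧ θ ∈ K' ∧ PV Γ K' := by
  by_cases hθ : θ ∈ K
  · exact ⟨K, le_rfl, hθ, hK⟩
  refine ⟨quad K θ hu hθ, fun x hx => ⟨x, hx, 0, K.zero_mem, by ring⟩,
    ⟨0, K.zero_mem, 1, K.one_mem, by ring⟩, ?_⟩
  rintro z ⟨α, hα, β, hβ, rfl⟩ hz
  have hβθ : ‖β * θ‖ = ‖β‖ := by rw [norm_mul, hθ1, mul_one]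
  by_cases hne : ‖α‖ = ‖β‖
  · have hβ0 : β ≠ 0 := by
      rintro rfl
      rw [norm_zero, norm_eq_zero] at hne
      apply hz
      rw [hne]
      ring
    have hβn : ‖β‖ ≠ 0 := norm_ne_zero_iff.2 hβ0
    set c := -α / β with hc
    have hcK : c ∈ K := K.div_mem (K.neg_mem hα) hβ
    have hc1 : ‖c‖ = 1 := by
      rw [hc, norm_div, norm_neg, hne, div_self hβn]
    have hz2 : α + β * θ = β * (θ - c) := by
      rw [hc]
      field_simp
      ring
    have hle : ‖θ - c‖ ≤ 1 := by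
      have h1 := norm_sub_le θ c
      rw [hθ1, hc1, max_self] at h1
      exact h1
    have hge : ¬ ‖θ - c‖ < 1 := by
      intro hlt
      obtain ⟨τ, hτ1, hτ2⟩ := exists_aut K hθ
      have h1 : (τ θ) ^ 2 = θ ^ 2 := by rw [← map_pow, hτ1 _ hu]
      have h2 : τ θ = -θ := (sq_eq_sq_iff_eq_or_eq_neg.1 h1).resolve_left hτ2
      have h3 : ‖-θ - c‖ < 1 := by
        have h4 : -θ - c = τ (θ - c) := by rw [map_sub, h2, hτ1 c hcK]
        rw [h4, norm_aut]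
        exact hlt
      have h5 : ‖(2 : PadicAlgCl l) * θ‖ < 1 := by
        have h6 : (2 : PadicAlgCl l) * θ = (θ - c) - (-θ - c) := by ring
        rw [h6]
        exact (norm_sub_le _ _).trans_lt (max_lt hlt h3)
      rw [norm_mul, norm_two hl, hθ1] at h5
      norm_num at h5
    have heq : ‖θ - c‖ = 1 := le_antisymm hle (not_lt.1 hge)
    rw [hz2, norm_mul, heq, mul_one]
    exact hK β hβ hβ0
  · have hne' : ‖α‖ ≠ ‖β * θ‖ := by rwa [hβθ]
    rw [IsUltrametricDist.norm_add_eq_max_of_norm_ne_norm hne', hβθ]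
    rcases lt_or_gt_of_ne hne with h | h
    · rw [max_eq_right h.le]
      refine hK β hβ (fun h0 => ?_)
      rw [h0, norm_zero] at h
      exact absurd h (not_lt.2 (norm_nonneg _))
    · rw [max_eq_left h.le]
      refine hK α hα (fun h0 => ?_)
      rw [h0, norm_zero] at h
      exact absurd h (not_lt.2 (norm_nonneg _))

theorem roots (hl : l ≠ 2) {Γ : Set ℝ} (n : ℕ) :
    ∀ {K : IntermediateField ℚ_[l] (PadicAlgCl l)}, PV Γ K → ∀ {θ : PadicAlgCl l}, θ ^ (2 ^ n) = 1 →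
    ∃ K' : IntermediateField ℚ_[l] (PadicAlgCl l), K ≤ K' ∧ θ ∈ K' ∧ PV Γ K' := by
  induction n with
  | zero =>
    intro K hK θ hθ
    refine ⟨K, le_rfl, ?_, hK⟩
    rw [pow_zero, pow_one] at hθ
    rw [hθ]
    exact K.one_mem
  | succ n ih =>
    intro K hK θ hθ
    have h1 : (θ ^ 2) ^ (2 ^ n) = 1 := by
      rw [← pow_mul, ← hθ]
      congr 1
      ring
    obtain ⟨K1, hK1, hm, hP⟩ := ih hK h1
    have h2 : ‖θ‖ = 1 := by
      have h3 : ‖θ‖ ^ (2 ^ (n + 1)) = 1 := by rw [← norm_pow, hθ, norm_one]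
      exact (pow_eq_one_iff_of_nonneg (norm_nonneg _) (by positivity)).1 h3
    obtain ⟨K2, hK2, hm2, hP2⟩ := step hl hP hm h2
    exact ⟨K2, hK1.trans hK2, hm2, hP2⟩

/-- the closure of the image of `F` -/
theorem base {Ω : Type} [Field Ω] [CharZero Ω] (F : IntermediateField ℚ Ω) (j : Ω →+* PadicAlgCl l) :
    ∃ K : IntermediateField ℚ_[l] (PadicAlgCl l), (∀ x ∈ F, j x ∈ K) ∧
      PV {r : ℝ | ∃ x : F, x ≠ 0 ∧ r = ‖j (x : Ω)‖} K := by
  let S : Subfield (PadicAlgCl l) := (j.comp (algebraMap F Ω)).fieldRange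
  have hQ : ∀ c : ℚ_[l], algebraMap ℚ_[l] (PadicAlgCl l) c ∈ S.topologicalClosure := by
    intro c
    have hcl : IsClosed {c : ℚ_[l] | algebraMap ℚ_[l] (PadicAlgCl l) c ∈ S.topologicalClosure} :=
      (S.isClosed_topologicalClosure).preimage (continuous_algebraMap ℚ_[l] (PadicAlgCl l))
    refine isClosed_property (Padic.denseRange_ratCast l) hcl (fun q => ?_) c
    apply S.le_topologicalClosure
    rw [map_ratCast]
    exact SubfieldClass.ratCast_mem S q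
  refine ⟨S.topologicalClosure.toIntermediateField hQ, fun x hx => ?_, ?_⟩
  · exact S.le_topologicalClosure ⟨⟨x, hx⟩, rfl⟩
  · intro z hz hz0
    have hz' : z ∈ closure (S : Set (PadicAlgCl l)) := hz
    obtain ⟨s, hs, hd⟩ := Metric.mem_closure_iff.1 hz' ‖z‖ (norm_pos_iff.2 hz0)
    rw [dist_eq_norm] at hd
    obtain ⟨x, rfl⟩ := hs
    change ‖z - j (x : Ω)‖ < ‖z‖ at hd
    have h1 : ‖z‖ = ‖j (x : Ω)‖ := by
      have h2 : ‖z‖ ≤ ‖j (x : Ω)‖ := by
        have h3 : ‖z‖ ≤ max ‖z - j (x : Ω)‖ ‖j (x : Ω)‖ := by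
          have := IsUltrametricDist.norm_add_le_max (z - j (x : Ω)) (j (x : Ω))
          rwa [sub_add_cancel] at this
        rcases le_max_iff.1 h3 with h | h
        · exact absurd hd (not_lt.2 h)
        · exact h
      have h4 : ‖j (x : Ω)‖ ≤ ‖z‖ := by
        have h5 := norm_sub_le z (z - j (x : Ω))
        rw [sub_sub_cancel, max_eq_left hd.le] at h5
        exact h5
      exact le_antisymm h2 h4
    refine ⟨x, ?_, h1⟩
    rintro rfl
    apply hz0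
    rw [← norm_eq_zero, h1]
    simp

end pad

section val

variable {Ω : Type} [Field Ω] [CharZero Ω] {F : IntermediateField ℚ Ω} [NumberField F]
  {v : HeightOneSpectrum (𝓞 F)} {l : ℕ} [Fact l.Prime] {j : Ω →+* PadicAlgCl l}

theorem val_one (hj : ∀ x : F, v.valuation F x < 1 ↔ ‖j (x : Ω)‖ < 1) {w : F} (hw : w ≠ 0) :
    v.valuation F w = 1 ↔ ‖j (w : Ω)‖ = 1 := by
  have h1 := hj w
  have h2 := hj w⁻¹
  have hw' : j (w : Ω) ≠ 0 := by
    rw [Ne, map_eq_zero]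
    exact fun h => hw (by exact_mod_cast h)
  have hn : 0 < ‖j (w : Ω)‖ := norm_pos_iff.2 hw'
  have hv : v.valuation F w ≠ 0 := (Valuation.ne_zero_iff _).2 hw
  have e1 : ‖j ((w⁻¹ : F) : Ω)‖ < 1 ↔ 1 < ‖j (w : Ω)‖ := by
    rw [show ((w⁻¹ : F) : Ω) = (w : Ω)⁻¹ from by push_cast; rfl, map_inv₀, norm_inv]
    exact inv_lt_one_iff₀.trans ⟨fun h => h.resolve_left (not_le.2 hn), Or.inr⟩
  have e2 : v.valuation F w⁻¹ < 1 ↔ 1 < v.valuation F w := by
    rw [map_inv₀]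
    exact inv_lt_one₀ (zero_lt_iff.2 hv)
  rw [e1, e2] at h2
  constructor
  · intro h
    rw [h] at h1 h2
    exact le_antisymm (not_lt.1 (fun h3 => lt_irrefl _ (h2.2 h3))) (not_lt.1 (fun h3 => lt_irrefl _ (h1.2 h3)))
  · intro h
    rw [h] at h1 h2
    exact le_antisymm (not_lt.1 (fun h3 => lt_irrefl _ (h2.1 h3))) (not_lt.1 (fun h3 => lt_irrefl _ (h1.1 h3)))

theorem exists_exp {x : F} (hx : x ≠ 0) : ∃ m : ℤ, v.valuation F x = WithZero.exp m := by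
  have h : v.valuation F x ≠ 0 := (Valuation.ne_zero_iff _).2 hx
  exact ⟨WithZero.log (v.valuation F x), (WithZero.exp_log h).symm⟩

/-- the odd valuation of `a` is not changed by squares -/
theorem odd_ne {a x : F} (ha : Od v a) (hx : x ≠ 0) : v.valuation F (a / x ^ 2) ≠ 1 := by
  obtain ⟨n, hn⟩ := ha
  obtain ⟨m, hm⟩ := exists_exp (v := v) hx
  rw [map_div₀, map_pow, hn, hm, ← WithZero.exp_nsmul, ← WithZero.exp_sub, ← WithZero.exp_zero]
  intro h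
  have h1 := WithZero.exp_injective h
  simp at h1
  omega

theorem exists_unit {D : F} (hD : D ≠ 0) (hOd : ¬ Od v D) : ∃ u : F, u ≠ 0 ∧ v.valuation F (D * u ^ 2) = 1 := by
  obtain ⟨m, hm⟩ := exists_exp (v := v) hD
  obtain ⟨k, hk⟩ : ∃ k : ℤ, m = 2 * k := by
    rcases Int.even_or_odd' m with ⟨k, h | h⟩
    · exact ⟨k, h⟩
    · exact absurd ⟨k, by rw [hm, h]⟩ hOd
  obtain ⟨π, hπ⟩ := v.valuation_exists_uniformizer F
  have hπ0 : π ≠ 0 := by
    rintro rfl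
    rw [map_zero] at hπ
    exact absurd hπ.symm WithZero.exp_ne_zero
  refine ⟨π ^ k, zpow_ne_zero _ hπ0, ?_⟩
  rw [map_mul, map_pow, map_zpow₀, hπ, hm, hk, ← WithZero.exp_zsmul, ← WithZero.exp_nsmul,
    ← WithZero.exp_add, ← WithZero.exp_zero]
  congr 1
  simp

end val

theorem chi_of_fix {Ω : Type} [Field Ω] [CharZero Ω] [IsAlgClosed Ω] {N : ℕ} {ζ : Ω}
    (hζ : IsPrimitiveRoot ζ (2 ^ N)) (σ : Ω ≃ₐ[ℚ] Ω) (h : σ ζ = ζ) : (2 : ℤ_[2]) ^ N ∣ chi σ - 1 := by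
  have h1 := cyclotomicCharacter.spec 2 (n := N) (σ : Ω ≃+* Ω) ζ hζ.pow_eq_one
  have h2 : (σ : Ω ≃+* Ω) ζ = ζ := h
  rw [h2] at h1
  set c := (cyclotomicCharacter Ω 2 (σ : Ω ≃+* Ω)).val with hc
  have h3 : ζ ^ 1 = ζ ^ (PadicInt.toZModPow N c).val := by rw [pow_one]; exact h1
  have h5 : PadicInt.toZModPow N c = 1 := by
    rcases Nat.eq_zero_or_pos N with rfl | hN
    · haveI : Subsingleton (ZMod (2 ^ 0)) := by
        rw [pow_zero]
        infer_instance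
      exact Subsingleton.elim _ _
    · have h4 : 1 = (PadicInt.toZModPow N c).val :=
        hζ.pow_inj (Nat.one_lt_two_pow hN.ne') (ZMod.val_lt _) h3
      have h6 : (((PadicInt.toZModPow N c).val : ℕ) : ZMod (2 ^ N)) = PadicInt.toZModPow N c :=
        ZMod.natCast_zmod_val _
      rw [← h4, Nat.cast_one] at h6
      exact h6.symm
  have h7 : c - 1 ∈ RingHom.ker (PadicInt.toZModPow N : ℤ_[2] →+* ZMod (2 ^ N)) := by
    rw [RingHom.mem_ker, map_sub, map_one, h5, sub_self]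
  rw [PadicInt.ker_toZModPow, Ideal.mem_span_singleton] at h7
  exact_mod_cast h7

theorem unr : S_UNR := by
  intro Ω _ _ _ _ F _ v l _ hl j hj a D y z N ha hD hOa hOD hy hz
  obtain ⟨K0, hK0, hP0⟩ := base F j
  set Γ : Set ℝ := {r : ℝ | ∃ x : F, x ≠ 0 ∧ r = ‖j (x : Ω)‖} with hΓ
  -- adjoin `j z`
  obtain ⟨u, hu0, hu⟩ := exists_unit hD hOD
  have hu0' : (u : Ω) ≠ 0 := by exact_mod_cast hu0
  have hDu : D * u ^ 2 ≠ 0 := mul_ne_zero hD (pow_ne_zero 2 hu0)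
  have h1 := (val_one hj hDu).1 hu
  have hθ2 : (j z * j u) ^ 2 = j ((D * u ^ 2 : F) : Ω) := by
    push_cast
    rw [← map_mul, ← map_pow, mul_pow, hz]
  have hθn : ‖j z * j u‖ = 1 := by
    have h2 : ‖j z * j u‖ ^ 2 = 1 := by rw [← norm_pow, hθ2, h1]
    exact (pow_eq_one_iff_of_nonneg (norm_nonneg _) two_ne_zero).1 h2
  obtain ⟨K1, hK1, hm1, hP1⟩ := step hl hP0 (θ := j z * j u)
    (by rw [hθ2]; exact hK0 _ (D * u ^ 2).2) hθn
  have hz1 : j z ∈ K1 := by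
    have h2 : j z = j z * j u / j u := by
      have : j (u : Ω) ≠ 0 := by rwa [Ne, map_eq_zero]
      field_simp
    rw [h2]
    exact K1.div_mem hm1 (hK1 (hK0 _ u.2))
  -- adjoin the root of unity
  obtain ⟨ζ, hζ⟩ := HasEnoughRootsOfUnity.exists_primitiveRoot Ω (2 ^ N)
  obtain ⟨K2, hK2, hm2, hP2⟩ := roots hl N hP1 (θ := j ζ) (by rw [← map_pow, hζ.pow_eq_one, map_one])
  -- `j y` does not belong to `K2`
  have ha' : (a : Ω) ≠ 0 := by exact_mod_cast ha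
  have hy0 : y ≠ 0 := by
    rintro rfl
    apply ha'
    rw [← hy]
    ring
  have hyK : j y ∉ K2 := by
    intro hmem
    obtain ⟨x, hx0, hx⟩ := hP2 _ hmem (by rwa [Ne, map_eq_zero])
    apply odd_ne hOa hx0
    rw [val_one hj (div_ne_zero ha (pow_ne_zero 2 hx0))]
    have hx' : j (x : Ω) ≠ 0 := by
      rw [Ne, map_eq_zero]
      exact_mod_cast hx0
    push_cast
    rw [map_div₀, norm_div, map_pow, norm_pow, ← hy, map_pow, norm_pow, hx]
    exact div_self (pow_ne_zero 2 (norm_ne_zero_iff.2 hx'))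
  obtain ⟨τ, hτ1, hτ2⟩ := exists_aut K2 hyK
  obtain ⟨σ, hσ⟩ := exists_restrict j (τ : PadicAlgCl l ≃+* PadicAlgCl l)
  have hσ' : ∀ x, j (σ x) = τ (j x) := hσ
  have hfix : ∀ x, j x ∈ K2 → σ x = x := by
    intro x hx
    apply j.injective
    rw [hσ', hτ1 _ hx]
  refine ⟨σ, ?_, ⟨τ, fun x => (hσ' x).symm⟩, ?_, hfix z (hK2 hz1), ?_⟩
  · intro x
    exact hfix _ (hK2 (hK1 (hK0 _ x.2)))
  · exact chi_of_fix hζ σ (hfix ζ hm2)
  · intro h
    apply hτ2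
    rw [← hσ', h]

end Pool.Agent.Q177.LS
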